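import Mathlib

set_option autoImplicit false

namespace Pool.Agent.Results.MP_77df55_co.Counter

open Function

def f : Fin 3 → Fin 16 → Fin 16 :=
  ![![1, 0, 4, 5, 3, 2, 10, 6, 9, 8, 7, 15, 11, 14, 13, 12],
    ![11, 5, 1, 4, 2, 3, 8, 10, 7, 6, 9, 0, 14, 15, 12, 13],
    ![6, 3, 5, 2, 1, 4, 0, 9, 10, 7, 8, 13, 15, 12, 11, 14]]

theorem blob (c : Fin 16 → Fin 3) (h : Injective fun i => f (c i) i) :
    f (c (f (c 0) 0)) (f (c 0) 0) = 0 := by
  have key : ∀ c0 c1 c2 c3 c4 c5 : Fin 3, [f c1 (f c0 0), f c2 (f c0 0 + 1), f c3 (f c0 0 + 2),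
      f c4 (f c0 0 + 3), f c5 (f c0 0 + 4), f c0 0].Nodup → f c1 (f c0 0) = 0 := by
    decide +kernel
  have nd : ∀ c0 : Fin 3,
      [f c0 0, f c0 0 + 1, f c0 0 + 2, f c0 0 + 3, f c0 0 + 4, 0].Nodup := by decide
  exact key _ _ _ _ _ _ ((nd (c 0)).map h)

theorem result (n : ℕ) (hn : 20 ≤ n) : ∃ G H : Fin n → Fin n → Prop,
    (∀ a, {b | G a b}.ncard = 3) ∧ (∀ b, {a | G a b}.ncard = 3) ∧
    (∀ a, {b | H a b}.ncard = 1) ∧ (∀ b, {a | H a b}.ncard = 1) ∧
    (∀ a b, ¬ (G a b ∧ H a b)) ∧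
    ∀ M : Fin n ≃ Fin n, (∀ a, G a (M a)) → ∃ a a', a ≠ a' ∧ H a (M a') ∧ H a' (M a) := by
  obtain ⟨m, rfl⟩ : ∃ m, n = 16 + (m + 4) := ⟨n - 20, by omega⟩
  let e : Fin (16 + (m + 4)) ≃ Fin 16 ⊕ Fin (m + 4) := finSumFinEquiv.symm
  let d : Fin 3 → Fin (m + 4) := fun t => ⟨t + 1, by omega⟩
  let s : Fin 3 → Fin 16 ⊕ Fin (m + 4) → Fin 16 ⊕ Fin (m + 4) :=
    fun t => Sum.map (f t) (· + d t)
  have b1 : ∀ t, Bijective (f t) := by decide +kernel
  have b2 : ∀ t, Bijective (s t) := fun t => (b1 t).sumMap (Equiv.addRight (d t)).bijective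
  have i1 : ∀ i, Injective (f · i) := by decide +kernel
  have i2 : ∀ v, Injective (s · v) := by
    rintro (i | x) t u h
    · exact i1 i (Sum.inl.inj h)
    · have := congrArg Fin.val (add_left_cancel (Sum.inr.inj h))
      exact Fin.ext (by simpa [d] using this)
  have n1 : ∀ t i, f t i ≠ i := by decide +kernel
  have n2 : ∀ t v, s t v ≠ v := by
    rintro t (i | x) h
    · exact n1 t i (Sum.inl.inj h)
    · have := congrArg Fin.val (add_eq_left.1 (Sum.inr.inj h))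
      simp [d] at this
  have c3 : ∀ g : Fin 3 → Fin (16 + (m + 4)), Injective g → (Set.range g).ncard = 3 :=
    fun g hg => by rw [← Set.image_univ, Set.ncard_image_of_injective _ hg]; simp [Set.ncard_univ]
  refine ⟨fun a b => ∃ t, s t (e a) = e b, Eq, fun a => ?_, fun b => ?_, by simp, by simp,
    ?_, fun M hM => ?_⟩
  · refine Eq.trans (congrArg _ ?_) (c3 (fun t => e.symm (s t (e a)))
      (e.symm.injective.comp (i2 _)))
    ext b
    simp [Equiv.symm_apply_eq]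
  · let r := fun t => (Equiv.ofBijective _ (b2 t)).symm (e b)
    have hr : ∀ t v, r t = v ↔ s t v = e b := fun t v =>
      (Equiv.symm_apply_eq _).trans eq_comm
    refine Eq.trans (congrArg _ ?_) (c3 (fun t => e.symm (r t))
      (e.symm.injective.comp fun t u h => i2 (r u) ?_))
    · ext a
      simp [Equiv.symm_apply_eq, hr]
    · exact ((hr t _).1 h).trans ((hr u _).1 rfl).symm
  · rintro a _ ⟨⟨t, h⟩, rfl⟩
    exact n2 t _ h
  · choose c hc using hM
    let c' : Fin 16 → Fin 3 := fun i => c (e.symm (.inl i))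
    have k : ∀ i, e.symm (.inl (f (c' i) i)) = M (e.symm (.inl i)) := fun i => by
      rw [Equiv.symm_apply_eq, ← hc, Equiv.apply_symm_apply]
      rfl
    have h := blob c' fun i j h => Sum.inl.inj (e.symm.injective (M.injective (by
      rw [← k, ← k]
      exact congrArg (fun x => e.symm (.inl x)) h)))
    refine ⟨e.symm (.inl 0), e.symm (.inl (f (c' 0) 0)), fun h => ?_, ?_, k 0⟩
    · exact n1 _ _ (Sum.inl.inj (e.symm.injective h)).symm
    · rw [← k, h]

end Pool.Agent.Results.MP_77df55_co.Counter
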